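import Pool.Agent.TH706.TW.Stack

/-!
Polynomially many steps.
-/

set_option autoImplicit false

namespace Pool.Agent.TH706.TW

open Finset
open Pool.Agent.H564R3.PW (Instr exec runs syms)
open Pool.Agent.W994.DE (Dag)
open Pool.Agent.TH679.PD
open Pool.Agent.TH679.TR
open Pool.Agent.TH706.SK
open scoped NNReal

theorem smallSets_mono {K K' : ℕ} (h : K ≤ K') (g : ℕ) : smallSets K g ≤ smallSets K' g :=
  Finset.sum_le_sum fun i _ => Nat.choose_le_choose i h

theorem smallSets_le {K g : ℕ} (h : g ≤ K) : g ^ g * smallSets K g ≤ (3 * K) ^ g := by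
  rcases Nat.eq_zero_or_pos K with h0 | h0
  · have : g = 0 := by omega
    subst this
    simp [smallSets]
  · have hK : (0 : ℝ) < K := by exact_mod_cast h0
    obtain ⟨x, hx⟩ : ∃ x : ℝ, x = g / K := ⟨_, rfl⟩
    have hx0 : 0 ≤ x := by rw [hx]; positivity
    have hx1 : x ≤ 1 := by
      rw [hx, div_le_one hK]
      exact_mod_cast h
    have hxK : x * K = g := by
      rw [hx]
      field_simp
    have h1 : (smallSets K g : ℝ) * x ^ g ≤ (x + 1) ^ K := by
      rw [add_pow, smallSets]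
      push_cast
      rw [Finset.sum_mul]
      have h2 : range (g + 1) ⊆ range (K + 1) := by
        intro i hi
        rw [mem_range] at hi ⊢
        omega
      refine le_trans (Finset.sum_le_sum fun i hi => ?_)
        (Finset.sum_le_sum_of_subset_of_nonneg h2 fun i _ _ => by positivity)
      rw [mem_range] at hi
      rw [one_pow, mul_one, mul_comm]
      exact mul_le_mul_of_nonneg_right (pow_le_pow_of_le_one hx0 hx1 (by omega)) (by positivity)
    have h2 : (x + 1) ^ K ≤ 3 ^ g := by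
      calc (x + 1) ^ K ≤ (Real.exp x) ^ K :=
            pow_le_pow_left₀ (by positivity) (Real.add_one_le_exp x) K
        _ = Real.exp 1 ^ g := by
            rw [← Real.exp_nat_mul, ← Real.exp_nat_mul, mul_one, mul_comm, hxK]
        _ ≤ 3 ^ g := pow_le_pow_left₀ (Real.exp_pos 1).le
            (Real.exp_one_lt_d9.le.trans (by norm_num)) g
    have h3 : (g : ℝ) ^ g * smallSets K g ≤ (3 * K) ^ g := by
      have h4 := h1.trans h2
      calc (g : ℝ) ^ g * smallSets K g = (smallSets K g * x ^ g) * K ^ g := by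
            rw [← hxK, mul_pow]
            ring
        _ ≤ 3 ^ g * K ^ g := mul_le_mul_of_nonneg_right h4 (by positivity)
        _ = (3 * K) ^ g := (mul_pow _ _ _).symm
    exact_mod_cast h3

/-- The law with the `g`-th root taken. -/
theorem law_root {K L g k a : ℕ} (hg : 1 ≤ g) (h : k ^ g ≤ (L + 1) * smallSets K g)
    (hL : L + 1 ≤ (2 ^ a) ^ g) (hk : 3 * 2 ^ a < k) : g * k ≤ 3 * 2 ^ a * K := by
  have h1 : g ^ g * k ^ g ≤ (2 ^ a) ^ g * (3 * max K g) ^ g := by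
    calc g ^ g * k ^ g ≤ g ^ g * ((L + 1) * smallSets K g) := Nat.mul_le_mul_left _ h
      _ = (L + 1) * (g ^ g * smallSets K g) := by ring
      _ ≤ (2 ^ a) ^ g * (g ^ g * smallSets (max K g) g) :=
          Nat.mul_le_mul hL (Nat.mul_le_mul_left _ (smallSets_mono (le_max_left _ _) g))
      _ ≤ (2 ^ a) ^ g * (3 * max K g) ^ g :=
          Nat.mul_le_mul_left _ (smallSets_le (le_max_right _ _))
  rw [← mul_pow, ← mul_pow] at h1
  have h2 : g * k ≤ 2 ^ a * (3 * max K g) :=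
    (Nat.pow_le_pow_iff_left (by omega)).1 h1
  rcases Nat.lt_or_ge g K with h3 | h3
  · rw [max_eq_left h3.le] at h2
    calc g * k ≤ 2 ^ a * (3 * K) := h2
      _ = 3 * 2 ^ a * K := by ring
  · exfalso
    rw [max_eq_right h3] at h2
    have h4 : g * k ≤ g * (3 * 2 ^ a) := by
      calc g * k ≤ 2 ^ a * (3 * g) := h2
        _ = g * (3 * 2 ^ a) := by ring
    have h5 := Nat.le_of_mul_le_mul_left h4 (by omega)
    omega

theorem N_le {h k N : ℕ} (hh : 1 ≤ h) (hk : 1 ≤ k) (hkh : k ≤ 2 ^ h)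
    (hN : N = (2 ^ h - 1) * k ^ 3 + 2 ^ h * k) : N ≤ 2 ^ (5 * h) := by
  have h1 : k ^ 3 ≤ 2 ^ (3 * h) := by
    calc k ^ 3 ≤ (2 ^ h) ^ 3 := Nat.pow_le_pow_left hkh 3
      _ = 2 ^ (3 * h) := by rw [← pow_mul, mul_comm]
  have h2 : k ≤ k ^ 3 := Nat.le_self_pow (by norm_num) k
  calc N ≤ 2 ^ h * k ^ 3 + 2 ^ h * k ^ 3 := by
        rw [hN]
        exact Nat.add_le_add (Nat.mul_le_mul_right _ (Nat.sub_le _ _)) (Nat.mul_le_mul_left _ h2)
    _ = 2 ^ (h + 1) * k ^ 3 := by ring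
    _ ≤ 2 ^ (h + 1) * 2 ^ (3 * h) := Nat.mul_le_mul_left _ h1
    _ = 2 ^ (4 * h + 1) := by rw [← pow_add]; congr 1; ring
    _ ≤ 2 ^ (5 * h) := Nat.pow_le_pow_right (by norm_num) (by omega)

theorem num_one {c h k N L K : ℕ} (hc : 1 ≤ c) (hk : 2 ^ (100 * c) ≤ k) (hkh : k ≤ 2 ^ h)
    (hN : N = (2 ^ h - 1) * k ^ 3 + 2 ^ h * k) (hL : L ≤ N ^ c)
    (hlaw : ∀ g, 2 * g ≤ h → k ^ g ≤ (L + 1) * smallSets K g) :
    k * Nat.log 2 N ≤ 2 ^ (100 * c) * K := by
  have hh : 100 * c ≤ h := (Nat.pow_le_pow_iff_right (by norm_num)).1 (hk.trans hkh)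
  have hk1 : 1 ≤ k := Nat.one_le_two_pow.trans hk
  have hN1 := N_le (by omega) hk1 hkh hN
  obtain ⟨g, hg⟩ : ∃ g, g = h / 2 := ⟨_, rfl⟩
  have hg3 : h ≤ 3 * g := by omega
  have hL1 : L + 1 ≤ (2 ^ (18 * c)) ^ g := by
    have h1 : L ≤ 2 ^ (5 * h * c) := by
      refine hL.trans ?_
      rw [pow_mul]
      exact Nat.pow_le_pow_left hN1 c
    have h2 : 1 ≤ 2 ^ (5 * h * c) := Nat.one_le_two_pow
    calc L + 1 ≤ 2 ^ (5 * h * c) + 2 ^ (5 * h * c) := Nat.add_le_add h1 h2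
      _ = 2 ^ (5 * h * c + 1) := by ring
      _ ≤ 2 ^ (18 * c * g) := by
          refine Nat.pow_le_pow_right (by norm_num) ?_
          have h3 : h * c ≤ 3 * g * c := Nat.mul_le_mul_right _ hg3
          have h4 : 1 * 1 ≤ h * c := Nat.mul_le_mul (by omega) hc
          calc 5 * h * c + 1 ≤ 6 * (h * c) := by
                have : 5 * h * c = 5 * (h * c) := by ring
                omega
            _ ≤ 6 * (3 * g * c) := Nat.mul_le_mul_left _ h3
            _ = 18 * c * g := by ring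
      _ = (2 ^ (18 * c)) ^ g := by rw [pow_mul]
  have hk3 : 3 * 2 ^ (18 * c) < k := by
    refine lt_of_lt_of_le ?_ hk
    calc 3 * 2 ^ (18 * c) < 2 ^ 2 * 2 ^ (18 * c) :=
          Nat.mul_lt_mul_of_pos_right (by norm_num) (Nat.pow_pos (by norm_num))
      _ = 2 ^ (2 + 18 * c) := (pow_add _ _ _).symm
      _ ≤ 2 ^ (100 * c) := Nat.pow_le_pow_right (by norm_num) (by omega)
  have h5 := law_root (by omega) (hlaw g (by omega)) hL1 hk3
  have hlog : Nat.log 2 N ≤ 5 * h := by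
    have := Nat.log_mono_right (b := 2) hN1
    rwa [Nat.log_pow (by norm_num)] at this
  calc k * Nat.log 2 N ≤ k * (5 * h) := Nat.mul_le_mul_left _ hlog
    _ ≤ k * (5 * (3 * g)) := Nat.mul_le_mul_left _ (Nat.mul_le_mul_left _ hg3)
    _ = 15 * (g * k) := by ring
    _ ≤ 15 * (3 * 2 ^ (18 * c) * K) := Nat.mul_le_mul_left _ h5
    _ = 45 * 2 ^ (18 * c) * K := by ring
    _ ≤ 2 ^ (100 * c) * K := by
        refine Nat.mul_le_mul_right _ ?_
        calc 45 * 2 ^ (18 * c) ≤ 2 ^ 6 * 2 ^ (18 * c) := Nat.mul_le_mul_right _ (by norm_num)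
          _ = 2 ^ (6 + 18 * c) := (pow_add _ _ _).symm
          _ ≤ 2 ^ (100 * c) := Nat.pow_le_pow_right (by norm_num) (by omega)

theorem num_two {c h k N L K n L' K' : ℕ} (hc : 1 ≤ c) (hk : 2 ^ (100 * c) ≤ k) (hkh : k ≤ 2 ^ h)
    (hN : N = (2 ^ h - 1) * k ^ 3 + 2 ^ h * k) (hL : L ≤ N ^ c) (hn : n = Nat.log 2 L)
    (hL' : L' ≤ 49 * 2 * L * 7 ^ n) (hK' : K' = K * ((2 * 2 + 1) * (n + 1) + 5))
    (hlaw : ∀ g, 2 * g ≤ h → k ^ g ≤ (L' + 1) * smallSets K' g) : k ≤ 2 ^ (100 * c) * K := by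
  have hh : 100 * c ≤ h := (Nat.pow_le_pow_iff_right (by norm_num)).1 (hk.trans hkh)
  have hk1 : 1 ≤ k := Nat.one_le_two_pow.trans hk
  have hN1 := N_le (by omega) hk1 hkh hN
  obtain ⟨g, hg⟩ : ∃ g, g = h / 2 := ⟨_, rfl⟩
  have hg3 : h ≤ 3 * g := by omega
  have hhc : 1 * 1 ≤ h * c := Nat.mul_le_mul (by omega) hc
  have h1 : L ≤ 2 ^ (5 * (h * c)) := by
    refine hL.trans ?_
    rw [← mul_assoc, pow_mul]
    exact Nat.pow_le_pow_left hN1 c
  have hn1 : n ≤ 5 * (h * c) := by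
    rw [hn]
    have := Nat.log_mono_right (b := 2) h1
    rwa [Nat.log_pow (by norm_num)] at this
  have hgc : h * c ≤ 3 * g * c := Nat.mul_le_mul_right _ hg3
  have hL1 : L' + 1 ≤ (2 ^ (84 * c)) ^ g := by
    have h2 : (7 : ℕ) ^ n ≤ 2 ^ (3 * n) := by
      rw [pow_mul]
      exact Nat.pow_le_pow_left (by norm_num) n
    have h3 : (2 : ℕ) ^ (3 * n) ≤ 2 ^ (15 * (h * c)) :=
      Nat.pow_le_pow_right (by norm_num) (by omega)
    have h4 : L' ≤ 2 ^ 7 * 2 ^ (5 * (h * c)) * 2 ^ (15 * (h * c)) :=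
      hL'.trans (Nat.mul_le_mul (Nat.mul_le_mul (by norm_num) h1) (h2.trans h3))
    rw [← pow_add, ← pow_add] at h4
    have h5 : 1 ≤ 2 ^ (7 + 5 * (h * c) + 15 * (h * c)) := Nat.one_le_two_pow
    calc L' + 1 ≤ 2 ^ (7 + 5 * (h * c) + 15 * (h * c)) + 2 ^ (7 + 5 * (h * c) + 15 * (h * c)) :=
          Nat.add_le_add h4 h5
      _ = 2 ^ (7 + 5 * (h * c) + 15 * (h * c) + 1) := by ring
      _ ≤ 2 ^ (84 * c * g) := by
          refine Nat.pow_le_pow_right (by norm_num) ?_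
          have : 84 * c * g = 28 * (3 * g * c) := by ring
          omega
      _ = (2 ^ (84 * c)) ^ g := by rw [pow_mul]
  have hk3 : 3 * 2 ^ (84 * c) < k := by
    refine lt_of_lt_of_le ?_ hk
    calc 3 * 2 ^ (84 * c) < 2 ^ 2 * 2 ^ (84 * c) :=
          Nat.mul_lt_mul_of_pos_right (by norm_num) (Nat.pow_pos (by norm_num))
      _ = 2 ^ (2 + 84 * c) := (pow_add _ _ _).symm
      _ ≤ 2 ^ (100 * c) := Nat.pow_le_pow_right (by norm_num) (by omega)
  have h5 := law_root (by omega) (hlaw g (by omega)) hL1 hk3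
  have h6 : K' ≤ K * (105 * (c * g)) := by
    rw [hK']
    refine Nat.mul_le_mul_left _ ?_
    have : 105 * (c * g) = 35 * (3 * g * c) := by ring
    omega
  have h7 : g * k ≤ g * (315 * c * 2 ^ (84 * c) * K) := by
    calc g * k ≤ 3 * 2 ^ (84 * c) * K' := h5
      _ ≤ 3 * 2 ^ (84 * c) * (K * (105 * (c * g))) := Nat.mul_le_mul_left _ h6
      _ = g * (315 * c * 2 ^ (84 * c) * K) := by ring
  have h8 := Nat.le_of_mul_le_mul_left h7 (by omega)
  refine h8.trans (Nat.mul_le_mul_right _ ?_)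
  calc 315 * c * 2 ^ (84 * c) ≤ 2 ^ 9 * 2 ^ c * 2 ^ (84 * c) :=
        Nat.mul_le_mul_right _ (Nat.mul_le_mul (by norm_num) Nat.lt_two_pow_self.le)
    _ = 2 ^ (9 + c + 84 * c) := by rw [pow_add, pow_add]
    _ ≤ 2 ^ (100 * c) := Nat.pow_le_pow_right (by norm_num) (by omega)

/-! ### Programs with a stack -/

/-- The elimination of the stack. -/
theorem eliminate {R X ρ : Type} [CommSemiring R] [Fintype ρ] [DecidableEq ρ]
    (p : List (SInstr R X ρ)) :
    ∃ (ρ' : Type) (_ : Fintype ρ') (_ : DecidableEq ρ') (q : List (Instr R X ρ')) (z : ρ → ρ'),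
      Fintype.card ρ' = 5 * (Nat.log 2 p.length + 2) * Fintype.card ρ ∧
      q.length ≤ 98 * p.length ^ 4 ∧ ∀ (w : X → R) (i : ρ), exec w q (z i) = sexec w p i := by
  obtain ⟨z, q, h1, h2⟩ := simulate_linear p 2 le_rfl
  refine ⟨ρ × Fin ((2 * 2 + 1) * (Nat.log 2 p.length + 1) + 5), inferInstance, inferInstance, q,
    fun i => (i, z), ?_, ?_, h2⟩
  · rw [Fintype.card_prod, Fintype.card_fin]
    ring
  · rcases Nat.eq_zero_or_pos p.length with h0 | h0
    · refine h1.trans (le_of_eq ?_)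
      rw [h0]
      simp
    · have h3 : (7 : ℕ) ^ Nat.log 2 p.length ≤ p.length ^ 3 := by
        calc (7 : ℕ) ^ Nat.log 2 p.length ≤ (2 ^ 3) ^ Nat.log 2 p.length :=
              Nat.pow_le_pow_left (by norm_num) _
          _ = (2 ^ Nat.log 2 p.length) ^ 3 := by rw [← pow_mul, ← pow_mul, mul_comm]
          _ ≤ p.length ^ 3 := Nat.pow_le_pow_left (Nat.pow_log_le_self 2 (by omega)) 3
      calc q.length ≤ 49 * 2 * p.length * 7 ^ Nat.log 2 p.length := h1
        _ ≤ 49 * 2 * p.length * p.length ^ 3 := Nat.mul_le_mul_left _ h3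
        _ = 98 * p.length ^ 4 := by ring

theorem stack_num {c h k N : ℕ} (hc : 1 ≤ c) (hk : 2 ^ (100 * c) ≤ k) (hkh : k ≤ 2 ^ h)
    (hN : N = Fintype.card (Rule (binTree h) k)) {ρ : Type} [Fintype ρ] [DecidableEq ρ]
    {u : Fin k} {L : ℕ} (hL : L ≤ N ^ c) {R : Type} [Zero R]
    {q : List (Instr R (Rule (binTree h) k)
      (ρ × Fin ((2 * 2 + 1) * (Nat.log 2 L + 1) + 5)))}
    {o : ρ × Fin ((2 * 2 + 1) * (Nat.log 2 L + 1) + 5)}
    (hq : q.length ≤ 49 * 2 * L * 7 ^ Nat.log 2 L) (hT : Good (syms q o) (broot h) u) :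
    k ≤ 2 ^ (100 * c) * Fintype.card ρ := by
  refine num_two (n := Nat.log 2 L) (L' := q.length)
    (K' := Fintype.card (ρ × Fin ((2 * 2 + 1) * (Nat.log 2 L + 1) + 5))) hc hk hkh
    (hN.trans (card_rule h k)) hL rfl hq ?_ fun g hg => bin_law hg hT
  rw [Fintype.card_prod, Fintype.card_fin]

theorem stack_lower_min {c h k N : ℕ} (hc : 1 ≤ c) (hk : 2 ^ (100 * c) ≤ k) (hkh : k ≤ 2 ^ h)
    (hN : N = Fintype.card (Rule (binTree h) k)) {ρ : Type} [Fintype ρ] [DecidableEq ρ]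
    {u : Fin k} {p : List (SInstr (Tropical (WithTop ℝ)) (Rule (binTree h) k) ρ)} {o : ρ}
    (hL : p.length ≤ N ^ c) (hp : StackSolvesMin (broot h) u p o) :
    k ≤ 2 ^ (100 * c) * Fintype.card ρ := by
  obtain ⟨z, q, h1, h2⟩ := simulate_linear p 2 le_rfl
  refine stack_num hc hk hkh hN hL h1 (o := (o, z)) (u := u) (good_min ?_)
  intro w
  rw [h2]
  exact hp w

theorem stack_lower_sum {c h k N : ℕ} (hc : 1 ≤ c) (hk : 2 ^ (100 * c) ≤ k) (hkh : k ≤ 2 ^ h)
    (hN : N = Fintype.card (Rule (binTree h) k)) {ρ : Type} [Fintype ρ] [DecidableEq ρ]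
    {u : Fin k} {p : List (SInstr ℝ≥0 (Rule (binTree h) k) ρ)} {o : ρ}
    (hL : p.length ≤ N ^ c) (hp : StackSolvesSum (broot h) u p o) :
    k ≤ 2 ^ (100 * c) * Fintype.card ρ := by
  obtain ⟨z, q, h1, h2⟩ := simulate_linear p 2 le_rfl
  refine stack_num hc hk hkh hN hL h1 (o := (o, z)) (u := u) (good_sum ?_)
  intro w
  rw [h2]
  exact hp w

end Pool.Agent.TH706.TW
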