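import Pool.Agent.TH679.PD.Run

/-!
A labelling for which only few nodes are open at any time: a sharper count. Instead of all sets of
registers only the sets of at most `q + 1` registers are counted.
-/

set_option autoImplicit false

namespace Pool.Agent.TH706.TW

open Finset
open Pool.Agent.H564R3.PW (Instr exec syms)
open Pool.Agent.W994.DE (Dag)
open Pool.Agent.W994.DE.Dag
open Pool.Agent.TH679.PD

/-- the number of the subsets with at most `m` elements of a set with `K` elements -/
def smallSets (K m : ℕ) : ℕ := ∑ i ∈ range (m + 1), K.choose i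

theorem card_small {ρ : Type} [Fintype ρ] [DecidableEq ρ] (m : ℕ) :
    ((univ : Finset (Finset ρ)).filter fun S => S.card ≤ m).card ≤ smallSets (Fintype.card ρ) m := by
  have h1 : ((univ : Finset (Finset ρ)).filter fun S => S.card ≤ m) ⊆
      (range (m + 1)).biUnion fun i => powersetCard i (univ : Finset ρ) := by
    intro S hS
    rw [mem_filter] at hS
    rw [mem_biUnion]
    refine ⟨S.card, mem_range.2 (by omega), ?_⟩
    rw [mem_powersetCard]
    exact ⟨subset_univ _, rfl⟩
  refine (card_le_card h1).trans (card_biUnion_le.trans (le_of_eq ?_))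
  unfold smallSets
  refine Finset.sum_congr rfl fun i _ => ?_
  rw [card_powersetCard, card_univ]

variable {G : Dag} {k : ℕ}

/-- Counting: some labelling has few open nodes at any time. -/
theorem exists_lam {R ρ : Type} [Zero R] [Fintype ρ] [DecidableEq ρ] {r : G.V} {u₀ : Fin k}
    {p : List (Instr R (Rule G k) ρ)} {o : ρ} (hT : Good (syms p o) r u₀) {q : ℕ}
    (hq : (p.length + 1) * smallSets (Fintype.card ρ) (q + 1) < k ^ (q + 1)) :
    ∃ lam : G.V → Fin k, lam r = u₀ ∧ ∃ D, IsHist p o (Mon lam r) D ∧
      ∀ t ≤ p.length, (opn k r (D t)).card ≤ q := by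
  classical
  by_contra hcon
  push Not at hcon
  have hex : ∀ lam : G.V → Fin k, ∃ D : ℕ → List (ρ × (Rule G k → ℕ)), ∃ t : ℕ,
      ∃ S : Finset G.V, ∃ reg : G.V → ρ, lam r = u₀ →
      IsHist p o (Mon lam r) D ∧ t ≤ p.length ∧ S.card = q + 1 ∧ r ∉ S ∧
        ∀ j ∈ S, ∃ m v, (reg j, m) ∈ D t ∧ bal j v m ≠ 0 := by
    intro lam
    by_cases hlam : lam r = u₀
    · obtain ⟨D, hD⟩ := history_mem (hT.mem lam hlam)
      obtain ⟨t, ht, hlt⟩ := hcon lam hlam D hD
      obtain ⟨S, hS, hSc⟩ := Finset.exists_subset_card_eq (show q + 1 ≤ (opn k r (D t)).card from hlt)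
      have hreg : ∀ j, ∃ i : ρ, j ∈ S → ∃ m v, (i, m) ∈ D t ∧ bal j v m ≠ 0 := by
        intro j
        by_cases hj : j ∈ S
        · obtain ⟨_, e, he, v, hv⟩ := mem_opn.1 (hS hj)
          exact ⟨e.1, fun _ => ⟨e.2, v, he, hv⟩⟩
        · exact ⟨o, fun h => absurd h hj⟩
      choose reg hreg using hreg
      exact ⟨D, t, S, reg, fun _ => ⟨hD, ht, hSc, fun h => (mem_opn.1 (hS h)).1 rfl, hreg⟩⟩
    · exact ⟨fun _ => [], 0, ∅, fun _ => o, fun h => absurd h hlam⟩
  choose D t S reg hDt using hex
  set Lam : Finset (G.V → Fin k) := univ.filter fun lam => lam r = u₀ with hLam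
  set Sm : Finset (Finset ρ) := univ.filter fun A => A.card ≤ q + 1 with hSm
  set f : (G.V → Fin k) → Fin (p.length + 1) × Finset ρ := fun lam =>
    (⟨min (t lam) p.length, by omega⟩, (S lam).image (reg lam)) with hf
  have hk : 0 < k := Nat.lt_of_le_of_lt (Nat.zero_le _) u₀.2
  set n := Fintype.card G.V with hn
  -- the fibres
  have hfib : ∀ c : Fin (p.length + 1) × Finset ρ,
      (Lam.filter fun lam => f lam = c).card ≤ k ^ (n - (q + 2)) := by
    intro c
    rcases (Lam.filter fun lam => f lam = c).eq_empty_or_nonempty with h0 | ⟨lam₀, h0⟩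
    · rw [h0, card_empty]
      exact Nat.zero_le _
    · rw [mem_filter, hLam, mem_filter] at h0
      obtain ⟨⟨_, hl0⟩, hc0⟩ := h0
      obtain ⟨⟨a1, a2, a3, a4, a5⟩, b1, b2, b3, b4⟩ := hDt lam₀ hl0
      set Q := insert r (S lam₀) with hQ
      have hQc : q + 2 ≤ Q.card := by
        rw [hQ, card_insert_of_notMem b3]
        omega
      refine (card_agree Q lam₀ _ ?_).trans (Nat.pow_le_pow_right hk (by omega))
      intro lam hlam j hj
      rw [mem_filter, hLam, mem_filter] at hlam
      obtain ⟨⟨_, hl⟩, hc⟩ := hlam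
      obtain ⟨⟨c1, c2, c3, c4, c5⟩, d1, d2, d3, d4⟩ := hDt lam hl
      rw [hQ, mem_insert] at hj
      rcases hj with hj | hj
      · rw [hj, hl, hl0]
      · obtain ⟨m₀, v, he, hv⟩ := b4 j hj
        have hcc : f lam = f lam₀ := hc.trans hc0.symm
        rw [hf] at hcc
        simp only [Prod.mk.injEq, Fin.mk.injEq] at hcc
        obtain ⟨hc1, hc2⟩ := hcc
        rw [min_eq_left d1, min_eq_left b1] at hc1
        have he' : reg lam₀ j ∈ (S lam₀).image (reg lam₀) := mem_image_of_mem _ hj
        rw [← hc2, mem_image] at he'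
        obtain ⟨j', hj', hjj⟩ := he'
        obtain ⟨m, v', hm, _⟩ := d4 j' hj'
        rw [hjj] at hm
        have u1 := a4 (t lam₀) b1 _ he
        have u2 := c4 (t lam) d1 _ hm
        rw [hc1] at u2
        have u3 := use_bal hT hl0 hl (q := m₀) (q' := m) (i := reg lam₀ j) u1 u2 j v
        have hv' : bal j v m ≠ 0 := by rw [← u3]; exact hv
        have u5 := use_supp u1
        dsimp only at u5
        rw [bal_supp u5] at hv
        have u4 := use_supp u2
        dsimp only at u4
        rw [bal_supp u4] at hv'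
        by_contra hne
        by_cases g1 : lam₀ j = v
        · by_cases g2 : lam j = v
          · exact hne (g2.trans g1.symm)
          · rw [if_neg g2] at hv'
            exact hv' rfl
        · rw [if_neg g1] at hv
          exact hv rfl
  have hLamc : Lam.card = k ^ (n - 1) := by
    have h1 : Lam = Fintype.piFinset fun j => if j = r then {u₀} else univ := by
      ext lam
      rw [hLam, mem_filter, Fintype.mem_piFinset]
      constructor
      · rintro ⟨_, h⟩ j
        by_cases hj : j = r
        · rw [if_pos hj, mem_singleton, hj, h]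
        · rw [if_neg hj]
          exact mem_univ _
      · intro h
        refine ⟨mem_univ _, ?_⟩
        have := h r
        rwa [if_pos rfl, mem_singleton] at this
    rw [h1, Fintype.card_piFinset]
    have h2 : ∀ j, (if j = r then ({u₀} : Finset (Fin k)) else univ).card =
        if j = r then 1 else k := by
      intro j
      split_ifs
      · exact card_singleton _
      · rw [card_univ, Fintype.card_fin]
    rw [Finset.prod_congr rfl fun j _ => h2 j, Finset.prod_ite, Finset.prod_const_one, one_mul,
      Finset.prod_const]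
    congr 1
    rw [Finset.filter_not, Finset.filter_eq' _ r, if_pos (mem_univ r),
      Finset.card_sdiff_of_subset (subset_univ _), card_singleton, card_univ]
  have hmaps : ∀ lam ∈ Lam, f lam ∈ (univ : Finset (Fin (p.length + 1))) ×ˢ Sm := by
    intro lam hlam
    rw [hLam, mem_filter] at hlam
    obtain ⟨_, _, d2, _, _⟩ := hDt lam hlam.2
    rw [mem_product]
    refine ⟨mem_univ _, ?_⟩
    rw [hSm, mem_filter]
    refine ⟨mem_univ _, ?_⟩
    show ((S lam).image (reg lam)).card ≤ q + 1
    exact card_image_le.trans (le_of_eq d2)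
  have hsum : Lam.card ≤
      ((p.length + 1) * smallSets (Fintype.card ρ) (q + 1)) * k ^ (n - (q + 2)) := by
    rw [Finset.card_eq_sum_card_fiberwise (f := f) (s := Lam)
      (t := (univ : Finset (Fin (p.length + 1))) ×ˢ Sm) (fun lam hlam => mem_coe.2 (hmaps lam hlam))]
    refine (Finset.sum_le_card_nsmul _ _ _ fun c _ => hfib c).trans ?_
    rw [smul_eq_mul, card_product, card_univ, Fintype.card_fin]
    exact Nat.mul_le_mul_right _ (Nat.mul_le_mul_left _ (card_small (q + 1)))
  -- a labelling, to see that there are at least q + 2 nodes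
  have hn2 : q + 2 ≤ n := by
    set lam : G.V → Fin k := fun _ => u₀ with hlamdef
    obtain ⟨_, _, b2, b3, _⟩ := hDt lam rfl
    have h1 := Finset.card_le_univ (insert r (S lam))
    rw [card_insert_of_notMem b3] at h1
    omega
  rw [hLamc] at hsum
  have h3 : n - 1 = (q + 1) + (n - (q + 2)) := by omega
  rw [h3, pow_add] at hsum
  have h4 : 0 < k ^ (n - (q + 2)) := Nat.pow_pos hk
  have h5 := Nat.le_of_mul_le_mul_right hsum h4
  omega

end Pool.Agent.TH706.TW
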