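import Mathlib

/-!
Sums of few signed powers of two.
-/

set_option autoImplicit false

namespace Pool.Agent.TH706.TW

/-- `x` is a sum of `n` terms `± 2 ^ a`. -/
def Rep : ℕ → ℤ → Prop
  | 0, x => x = 0
  | n + 1, x => ∃ a : ℕ, Rep n (x - 2 ^ a) ∨ Rep n (x + 2 ^ a)

theorem rep_add {n : ℕ} {x : ℤ} (h : Rep n x) (a : ℕ) : Rep (n + 1) (x + 2 ^ a) :=
  ⟨a, Or.inl (by rwa [add_sub_cancel_right])⟩

theorem rep_sub {n : ℕ} {x : ℤ} (h : Rep n x) (a : ℕ) : Rep (n + 1) (x - 2 ^ a) :=
  ⟨a, Or.inr (by rwa [sub_add_cancel])⟩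

theorem rep_add_one {n : ℕ} {x : ℤ} (h : Rep n x) : Rep (n + 1) (x + 1) := by
  simpa using rep_add h 0

theorem rep_sub_one {n : ℕ} {x : ℤ} (h : Rep n x) : Rep (n + 1) (x - 1) := by
  simpa using rep_sub h 0

/-- halving -/
theorem rep_half : ∀ (n : ℕ) (x : ℤ),
    (Rep n (2 * x) → ∃ m, m ≤ n ∧ Rep m x) ∧
    (Rep n (2 * x + 1) → ∃ m, m < n ∧ (Rep m x ∨ Rep m (x + 1))) := by
  intro n
  induction n with
  | zero =>
    intro x
    constructor
    · intro h
      have h1 : 2 * x = 0 := h
      exact ⟨0, le_rfl, show x = 0 by omega⟩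
    · intro h
      have h1 : 2 * x + 1 = 0 := h
      omega
  | succ n ih =>
    intro x
    constructor
    · rintro ⟨a, ha | ha⟩
      · rcases a with _ | a
        · have e : 2 * x - 2 ^ 0 = 2 * (x - 1) + 1 := by ring
          rw [e] at ha
          obtain ⟨m, hm, h1 | h1⟩ := (ih (x - 1)).2 ha
          · refine ⟨m + 1, by omega, ?_⟩
            have := rep_add_one h1
            rwa [sub_add_cancel] at this
          · exact ⟨m, by omega, by rwa [sub_add_cancel] at h1⟩
        · have e : 2 * x - 2 ^ (a + 1) = 2 * (x - 2 ^ a) := by ring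
          rw [e] at ha
          obtain ⟨m, hm, h1⟩ := (ih _).1 ha
          refine ⟨m + 1, by omega, ?_⟩
          have := rep_add h1 a
          rwa [sub_add_cancel] at this
      · rcases a with _ | a
        · have e : 2 * x + 2 ^ 0 = 2 * x + 1 := by ring
          rw [e] at ha
          obtain ⟨m, hm, h1 | h1⟩ := (ih x).2 ha
          · exact ⟨m, by omega, h1⟩
          · refine ⟨m + 1, by omega, ?_⟩
            have := rep_sub_one h1
            rwa [add_sub_cancel_right] at this
        · have e : 2 * x + 2 ^ (a + 1) = 2 * (x + 2 ^ a) := by ring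
          rw [e] at ha
          obtain ⟨m, hm, h1⟩ := (ih _).1 ha
          refine ⟨m + 1, by omega, ?_⟩
          have := rep_sub h1 a
          rwa [add_sub_cancel_right] at this
    · rintro ⟨a, ha | ha⟩
      · rcases a with _ | a
        · have e : 2 * x + 1 - 2 ^ 0 = 2 * x := by ring
          rw [e] at ha
          obtain ⟨m, hm, h1⟩ := (ih x).1 ha
          exact ⟨m, by omega, Or.inl h1⟩
        · have e : 2 * x + 1 - 2 ^ (a + 1) = 2 * (x - 2 ^ a) + 1 := by ring
          rw [e] at ha
          obtain ⟨m, hm, h1 | h1⟩ := (ih _).2 ha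
          · refine ⟨m + 1, by omega, Or.inl ?_⟩
            have := rep_add h1 a
            rwa [sub_add_cancel] at this
          · refine ⟨m + 1, by omega, Or.inr ?_⟩
            have := rep_add h1 a
            rwa [show x - 2 ^ a + 1 + 2 ^ a = x + 1 by ring] at this
      · rcases a with _ | a
        · have e : 2 * x + 1 + 2 ^ 0 = 2 * (x + 1) := by ring
          rw [e] at ha
          obtain ⟨m, hm, h1⟩ := (ih _).1 ha
          exact ⟨m, by omega, Or.inr h1⟩
        · have e : 2 * x + 1 + 2 ^ (a + 1) = 2 * (x + 2 ^ a) + 1 := by ring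
          rw [e] at ha
          obtain ⟨m, hm, h1 | h1⟩ := (ih _).2 ha
          · refine ⟨m + 1, by omega, Or.inl ?_⟩
            have := rep_sub h1 a
            rwa [add_sub_cancel_right] at this
          · refine ⟨m + 1, by omega, Or.inr ?_⟩
            have := rep_sub h1 a
            rwa [show x + 2 ^ a + 1 - 2 ^ a = x + 1 by ring] at this

theorem rep_quarter {n : ℕ} {x : ℤ} (h : Rep n (4 * x + 1)) : ∃ m, m < n ∧ Rep m x := by
  have e : 4 * x + 1 = 2 * (2 * x) + 1 := by ring
  rw [e] at h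
  obtain ⟨m, hm, h1 | h1⟩ := (rep_half n _).2 h
  · obtain ⟨m', hm', h2⟩ := (rep_half m _).1 h1
    exact ⟨m', by omega, h2⟩
  · obtain ⟨m', hm', h2 | h2⟩ := (rep_half m _).2 h1
    · exact ⟨m', by omega, h2⟩
    · refine ⟨m' + 1, by omega, ?_⟩
      have := rep_sub_one h2
      rwa [add_sub_cancel_right] at this

/-- the number `1 + 4 + ... + 4 ^ (g - 1)` -/
def alt : ℕ → ℤ
  | 0 => 0
  | g + 1 => 4 * alt g + 1

theorem alt_nonneg (g : ℕ) : 0 ≤ alt g := by
  induction g with
  | zero => exact le_rfl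
  | succ g ih =>
    show 0 ≤ 4 * alt g + 1
    omega

theorem alt_lt (g : ℕ) : alt g < 4 ^ g := by
  induction g with
  | zero => exact one_pos
  | succ g ih =>
    show 4 * alt g + 1 < 4 ^ (g + 1)
    rw [pow_succ]
    omega

/-- A number that is `alt g` modulo `4 ^ g` is not the sum of fewer than `g` signed powers of
two. -/
theorem rep_alt : ∀ (g n : ℕ) (y : ℤ), Rep n (alt g + 4 ^ g * y) → g ≤ n := by
  intro g
  induction g with
  | zero => intro n y _; exact Nat.zero_le _
  | succ g ih =>
    intro n y h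
    have e : alt (g + 1) + 4 ^ (g + 1) * y = 4 * (alt g + 4 ^ g * y) + 1 := by
      show 4 * alt g + 1 + 4 ^ (g + 1) * y = _
      ring
    rw [e] at h
    obtain ⟨m, hm, h1⟩ := rep_quarter h
    have := ih m y h1
    omega

/-- A sum of terms `2 ^ a * c` with `c` in `{-1, 0, 1}`. -/
theorem rep_sum {ι : Type} [DecidableEq ι] (s : Finset ι) (a : ι → ℕ) (c : ι → ℤ)
    (hc : ∀ i ∈ s, c i = 0 ∨ c i = 1 ∨ c i = -1) :
    Rep (s.filter fun i => c i ≠ 0).card (∑ i ∈ s, 2 ^ a i * c i) := by
  classical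
  induction s using Finset.induction_on with
  | empty => exact rfl
  | insert i s hi ih =>
    have ih' := ih fun j hj => hc j (Finset.mem_insert_of_mem hj)
    rw [Finset.sum_insert hi, Finset.filter_insert]
    rcases hc i (Finset.mem_insert_self i s) with h | h | h
    · rw [if_neg (by rw [h]; simp), h, mul_zero, zero_add]
      exact ih'
    · rw [if_pos (by rw [h]; norm_num), Finset.card_insert_of_notMem (by simp [hi]), h, mul_one,
        add_comm (2 ^ a i)]
      exact rep_add ih' _
    · rw [if_pos (by rw [h]; norm_num), Finset.card_insert_of_notMem (by simp [hi]), h]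
      have := rep_sub ih' (a i)
      rwa [show 2 ^ a i * (-1 : ℤ) + ∑ j ∈ s, 2 ^ a j * c j =
        ∑ j ∈ s, 2 ^ a j * c j - 2 ^ a i by ring]

end Pool.Agent.TH706.TW
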