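import Pool.Agent.TH706.TW.Count
import Pool.Agent.TH706.TW.Rep
import Pool.Agent.TH679.TR.Bin

/-!
Every history of a labelling of the complete binary tree of height `h ≥ 2 g` has `g` open nodes at
some time.
-/

set_option autoImplicit false

namespace Pool.Agent.TH706.TW

open Finset
open Pool.Agent.H564R3.PW (Instr exec syms)
open Pool.Agent.W994.DE (Dag)
open Pool.Agent.W994.DE.Dag
open Pool.Agent.TH679.PD
open Pool.Agent.TH679.TR

theorem sum_half (f : ℕ → ℤ) (a : ℕ) : ∀ b, a ≤ b →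
    ∑ X ∈ Ico (2 * a) (2 * b), f (X / 2) = 2 * ∑ Y ∈ Ico a b, f Y := by
  intro b hb
  induction b, hb using Nat.le_induction with
  | base => simp
  | succ b hb ih =>
    rw [show 2 * (b + 1) = 2 * b + 1 + 1 by ring, Finset.sum_Ico_succ_top (by omega),
      Finset.sum_Ico_succ_top (by omega), ih, Finset.sum_Ico_succ_top hb]
    have e1 : 2 * b / 2 = b := by omega
    have e2 : (2 * b + 1) / 2 = b := by omega
    rw [e1, e2]
    ring

/-- The sum of a function over the leaves of a complete binary tree in terms of its differences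
along the edges. -/
theorem tree_sum (F : ℕ → ℤ) (d : ℕ) :
    ∑ X ∈ Ico (2 ^ d) (2 ^ (d + 1)), F X =
      2 ^ d * F 1 + ∑ Y ∈ Ico 2 (2 ^ (d + 1)), 2 ^ (d - Nat.log 2 Y) * (F Y - F (Y / 2)) := by
  induction d with
  | zero => simp
  | succ d ih =>
    have h1 : ∑ X ∈ Ico (2 ^ (d + 1)) (2 ^ (d + 1 + 1)), F X =
        ∑ X ∈ Ico (2 ^ (d + 1)) (2 ^ (d + 1 + 1)), F (X / 2) +
          ∑ X ∈ Ico (2 ^ (d + 1)) (2 ^ (d + 1 + 1)), (F X - F (X / 2)) := by
      rw [← Finset.sum_add_distrib]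
      exact Finset.sum_congr rfl fun X _ => by ring
    have h2 : ∑ X ∈ Ico (2 ^ (d + 1)) (2 ^ (d + 1 + 1)), F (X / 2) =
        2 * ∑ X ∈ Ico (2 ^ d) (2 ^ (d + 1)), F X := by
      rw [← sum_half F (2 ^ d) (2 ^ (d + 1)) (Nat.pow_le_pow_right (by norm_num) (by omega))]
      rw [show 2 * 2 ^ d = 2 ^ (d + 1) by ring, show 2 * 2 ^ (d + 1) = 2 ^ (d + 1 + 1) by ring]
    have h3 : (2 : ℕ) ≤ 2 ^ (d + 1) := by
      calc 2 = 2 ^ 1 := rfl
        _ ≤ 2 ^ (d + 1) := Nat.pow_le_pow_right (by norm_num) (by omega)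
    rw [h1, h2, ih, ← Finset.sum_Ico_consecutive _ h3
      (Nat.pow_le_pow_right (by norm_num) (show d + 1 ≤ d + 1 + 1 by omega)), mul_add, Finset.mul_sum]
    have h4 : ∀ Y ∈ Ico 2 (2 ^ (d + 1)), 2 * (2 ^ (d - Nat.log 2 Y) * (F Y - F (Y / 2))) =
        2 ^ (d + 1 - Nat.log 2 Y) * (F Y - F (Y / 2)) := by
      intro Y hY
      rw [mem_Ico] at hY
      have h5 : Nat.log 2 Y < d + 1 := Nat.log_lt_of_lt_pow (by omega) hY.2
      rw [show d + 1 - Nat.log 2 Y = d - Nat.log 2 Y + 1 by omega, pow_succ]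
      ring
    rw [Finset.sum_congr rfl h4]
    have h6 : ∀ X ∈ Ico (2 ^ (d + 1)) (2 ^ (d + 1 + 1)), F X - F (X / 2) =
        2 ^ (d + 1 - Nat.log 2 X) * (F X - F (X / 2)) := by
      intro X hX
      rw [mem_Ico] at hX
      have h7 : Nat.log 2 X = d + 1 := by
        rw [Nat.log_eq_iff (Or.inr ⟨by norm_num, by omega⟩)]
        exact hX
      rw [h7, Nat.sub_self, pow_zero, one_mul]
    rw [Finset.sum_congr rfl h6]
    ring

/-- the node `X - 1` of the complete binary tree -/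
def bn (h X : ℕ) : (binTree h).V :=
  if hX : X - 1 < 2 ^ (h + 1) - 1 then (⟨X - 1, hX⟩ : Fin (2 ^ (h + 1) - 1)) else broot h

theorem bn_val {h X : ℕ} (h1 : 1 ≤ X) (h2 : X < 2 ^ (h + 1)) : (bn h X).val = X - 1 := by
  have h3 : X - 1 < 2 ^ (h + 1) - 1 := by omega
  have h4 : bn h X = (⟨X - 1, h3⟩ : Fin (2 ^ (h + 1) - 1)) := dif_pos h3
  rw [h4]

theorem bn_inj {h X Y : ℕ} (h1 : 1 ≤ X) (h2 : X < 2 ^ (h + 1)) (h3 : 1 ≤ Y)
    (h4 : Y < 2 ^ (h + 1)) (he : bn h X = bn h Y) : X = Y := by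
  have h5 := congrArg Fin.val he
  rw [bn_val h1 h2, bn_val h3 h4] at h5
  omega

theorem bn_ne_root {h X : ℕ} (h1 : 2 ≤ X) (h2 : X < 2 ^ (h + 1)) : bn h X ≠ broot h := by
  intro he
  have h5 := congrArg Fin.val he
  rw [bn_val (by omega) h2] at h5
  have h6 : (broot h).val = 0 := rfl
  omega

theorem par_bn {h Y : ℕ} (h1 : 2 ≤ Y) (h2 : Y < 2 ^ (h + 1)) :
    par (isTree_bin h) (bn h Y) = bn h (Y / 2) := by
  have h3 : 2 ^ (h + 1) = 2 * 2 ^ h := by rw [pow_succ, mul_comm]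
  have h4 : (bn h (Y / 2)).val = Y / 2 - 1 := bn_val (by omega) (by omega)
  have hdeg : (binTree h).deg (bn h (Y / 2)) = 2 := by
    show (if (bn h (Y / 2)).val + 1 < 2 ^ h then 2 else 0) = 2
    rw [if_pos (by omega)]
  have h5 : (binTree h).kid (bn h (Y / 2)) ⟨Y % 2, by rw [hdeg]; omega⟩ = bn h Y := by
    apply Fin.ext
    rw [bn_val (by omega) h2]
    show 2 * (bn h (Y / 2)).val + 1 + Y % 2 = Y - 1
    omega
  rw [← h5, par_kid]

/-- In a tree: conservation at the nodes that are not open. -/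
theorem conserve_tree {G : Dag} {k : ℕ} {r : G.V} (h : IsTree G r) {ρ : Type} {lam : G.V → Fin k}
    {D : List (ρ × (Rule G k → ℕ))} (hs : ∀ e ∈ D, Supp lam e.2) {j : G.V} (hj : j ≠ r)
    (ho : j ∉ opn k r D) : tot D (xl lam j) = tot D (xl lam (par h j)) := by
  rw [conserve hs hj ho, Finset.sum_eq_single (par h j)]
  · rw [E_par h hj, mul_one]
  · intro i _ hi
    rw [E_other h (Or.inr hi), mul_zero]
  · intro hh
    exact absurd (mem_univ _) hh

/-- a sequence of integers that starts at `0` and grows by at most one in each step -/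
theorem ivt (f : ℕ → ℤ) (L : ℕ) (h0 : f 0 = 0) (hstep : ∀ t < L, f (t + 1) ≤ f t + 1) {m : ℤ}
    (hm : 0 ≤ m) (hL : m ≤ f L) : ∃ t ≤ L, f t = m := by
  induction L with
  | zero => exact ⟨0, le_rfl, by omega⟩
  | succ L ih =>
    by_cases h1 : m ≤ f L
    · obtain ⟨t, ht, h2⟩ := ih (fun t ht => hstep t (by omega)) h1
      exact ⟨t, by omega, h2⟩
    · have := hstep L (by omega)
      exact ⟨L + 1, le_rfl, by omega⟩

theorem bin_cut {h g k : ℕ} (hg : 2 * g ≤ h) {R ρ : Type} [Zero R] [DecidableEq ρ]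
    {p : List (Instr R (Rule (binTree h) k) ρ)} {o : ρ} {lam : (binTree h).V → Fin k}
    {D : ℕ → List (ρ × (Rule (binTree h) k → ℕ))} (hD : IsHist p o (Mon lam (broot h)) D) :
    ∃ t ≤ p.length, g ≤ (opn k (broot h) (D t)).card := by
  classical
  obtain ⟨h1, h2, h3, h4, h5⟩ := hD
  obtain ⟨L, hL⟩ : ∃ L, L = p.length := ⟨_, rfl⟩
  obtain ⟨m, hm⟩ : ∃ m : ℕ → (binTree h).V → ℕ, ∀ t i, m t i = tot (D t) (xl lam i) :=
    ⟨_, fun _ _ => rfl⟩
  have hstep : ∀ t < L, ∃ j, (∀ i, i ≠ j → m (t + 1) i = m t i) ∧ ∀ i, m t i ≤ m (t + 1) i := by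
    intro t ht
    obtain ⟨y, hy, hy2⟩ := h5 t (by omega)
    have e1 : ∀ i, m (t + 1) i = y (xl lam i) + m t i := by
      intro i
      rw [hm, hm, hy, Pi.add_apply]
    by_cases hex : ∃ j, y (xl lam j) ≠ 0
    · obtain ⟨j, hj⟩ := hex
      refine ⟨j, fun i hi => ?_, fun i => by rw [e1]; omega⟩
      have h6 : y (xl lam i) = 0 := by
        by_contra h7
        obtain ⟨s, hs⟩ := hy2 _ h7
        obtain ⟨s', hs'⟩ := hy2 _ hj
        rw [hs] at hs'
        simp only [Option.some.injEq, Instr.load.injEq] at hs'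
        exact hi (xl_inj hs'.2)
      rw [e1, h6, zero_add]
    · push Not at hex
      refine ⟨broot h, fun i _ => ?_, fun i => by rw [e1]; omega⟩
      rw [e1, hex i, zero_add]
  have hmono : ∀ a b, a ≤ b → b ≤ L → ∀ i, m a i ≤ m b i := by
    intro a b hab hb i
    induction b, hab using Nat.le_induction with
    | base => exact le_rfl
    | succ b hab ih =>
      obtain ⟨_, _, h7⟩ := hstep b (by omega)
      exact (ih (by omega)).trans (h7 i)
  have hend : ∀ i, m L i = 1 := by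
    intro i
    rw [hm, hL, h1, Mon_xl, cnt_one (isTree_bin h)]
  have hle : ∀ t ≤ L, ∀ i, m t i ≤ 1 := by
    intro t ht i
    rw [← hend i]
    exact hmono t L ht le_rfl i
  have hbeg : ∀ i, m 0 i = 0 := by
    intro i
    rw [hm, h2, tot_nil]
    rfl
  -- the number of the leaves
  obtain ⟨f, hf⟩ : ∃ f : ℕ → ℤ, ∀ t, f t = ∑ X ∈ Ico (2 ^ h) (2 ^ (h + 1)), (m t (bn h X) : ℤ) :=
    ⟨_, fun _ => rfl⟩
  have hf0 : f 0 = 0 := by
    rw [hf]
    exact Finset.sum_eq_zero fun X _ => by rw [hbeg]; rfl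
  have hfL : f L = 2 ^ h := by
    rw [hf, Finset.sum_congr rfl fun X _ => by rw [hend], Finset.sum_const, Nat.card_Ico]
    rw [show 2 ^ (h + 1) - 2 ^ h = 2 ^ h by rw [pow_succ]; omega]
    simp
  have hfs : ∀ t < L, f (t + 1) ≤ f t + 1 := by
    intro t ht
    obtain ⟨j, h6, h7⟩ := hstep t ht
    rw [hf, hf]
    have h8 : ∀ X ∈ Ico (2 ^ h) (2 ^ (h + 1)), (m (t + 1) (bn h X) : ℤ) ≤
        (m t (bn h X) : ℤ) + if X = j.val + 1 then 1 else 0 := by
      intro X hX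
      rw [mem_Ico] at hX
      by_cases hXj : X = j.val + 1
      · rw [if_pos hXj]
        have := hle (t + 1) (by omega) (bn h X)
        omega
      · rw [if_neg hXj, h6, add_zero]
        intro he
        apply hXj
        have h9 := congrArg Fin.val he
        have h10 : 1 ≤ 2 ^ h := Nat.one_le_two_pow
        rw [bn_val (by omega) hX.2] at h9
        omega
    refine (Finset.sum_le_sum h8).trans ?_
    rw [Finset.sum_add_distrib, Finset.sum_ite_eq']
    split_ifs <;> omega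
  have h4g : (4 : ℤ) ^ g ≤ 2 ^ h := by
    have : (4 : ℤ) = 2 ^ 2 := by norm_num
    rw [this, ← pow_mul]
    exact pow_le_pow_right₀ (by norm_num) hg
  obtain ⟨t, ht, hft⟩ := ivt f L hf0 hfs (alt_nonneg g) (by
    rw [hfL]
    exact (alt_lt g).le.trans h4g)
  refine ⟨t, by omega, ?_⟩
  -- the differences along the edges
  have hsum := tree_sum (fun X => (m t (bn h X) : ℤ)) h
  rw [← hf, hft] at hsum
  obtain ⟨c, hc⟩ : ∃ c : ℕ → ℤ, ∀ Y, c Y = (m t (bn h Y) : ℤ) - (m t (bn h (Y / 2)) : ℤ) :=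
    ⟨_, fun _ => rfl⟩
  have hcc : ∀ Y ∈ Ico 2 (2 ^ (h + 1)), c Y = 0 ∨ c Y = 1 ∨ c Y = -1 := by
    intro Y _
    have e1 := hle t ht (bn h Y)
    have e2 := hle t ht (bn h (Y / 2))
    rw [hc]
    omega
  have hrep := rep_sum (Ico 2 (2 ^ (h + 1))) (fun Y => h - Nat.log 2 Y) c hcc
  have hval : ∑ Y ∈ Ico 2 (2 ^ (h + 1)), 2 ^ (h - Nat.log 2 Y) * c Y =
      alt g + 4 ^ g * (-(2 ^ (h - 2 * g) * (m t (bn h 1) : ℤ))) := by
    have e1 : (2 : ℤ) ^ h = 4 ^ g * 2 ^ (h - 2 * g) := by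
      have : (4 : ℤ) = 2 ^ 2 := by norm_num
      rw [this, ← pow_mul, ← pow_add]
      congr 1
      omega
    simp_rw [hc]
    rw [e1] at hsum
    linarith
  rw [hval] at hrep
  refine (rep_alt g _ _ hrep).trans ?_
  refine Finset.card_le_card_of_injOn (fun Y => bn h Y) ?_ ?_
  · intro Y hY
    rw [mem_coe, mem_filter, mem_Ico] at hY
    obtain ⟨⟨hY1, hY2⟩, hY3⟩ := hY
    rw [mem_coe]
    by_contra hno
    apply hY3
    have h6 := conserve_tree (isTree_bin h) (fun e he => use_supp (h4 t (by omega) e he))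
      (bn_ne_root hY1 hY2) hno
    rw [par_bn hY1 hY2] at h6
    rw [hc, hm, hm, h6, sub_self]
  · intro X hX Y hY he
    rw [mem_coe, mem_filter, mem_Ico] at hX hY
    exact bn_inj (by omega) hX.1.2 (by omega) hY.1.2 he

/-- The law for the complete binary tree. -/
theorem bin_law {h g k : ℕ} (hg : 2 * g ≤ h) {R ρ : Type} [Zero R] [Fintype ρ] [DecidableEq ρ]
    {u₀ : Fin k} {p : List (Instr R (Rule (binTree h) k) ρ)} {o : ρ}
    (hT : Good (syms p o) (broot h) u₀) :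
    k ^ g ≤ (p.length + 1) * smallSets (Fintype.card ρ) g := by
  rcases g with _ | q
  · rw [pow_zero]
    refine Nat.mul_pos (Nat.succ_pos _) ?_
    simp [smallSets]
  · by_contra hno
    push Not at hno
    obtain ⟨lam, _, D, hD, hfew⟩ := exists_lam hT hno
    obtain ⟨t, ht, h1⟩ := bin_cut hg hD
    have := hfew t ht
    omega

end Pool.Agent.TH706.TW
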