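import Pool.Agent.TH706.TW.Cut
import Pool.Agent.TH706.SK.Peb

/-!
A short program with `2 k + 2` registers and a stack for the complete binary tree.
-/

set_option autoImplicit false

namespace Pool.Agent.TH706.TW

open Finset
open Pool.Agent.H564R3.PW (Instr exec runs)
open Pool.Agent.W994.DE (Dag)
open Pool.Agent.TH679.PD
open Pool.Agent.TH679.TR
open Pool.Agent.TH706.SK

section Basic

variable {R X ρ ι : Type} [CommSemiring R] [DecidableEq ρ]

theorem sruns_op (w : X → R) : ∀ (p : List (Instr R X ρ)) (v : ρ → R) (σ : List R),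
    sruns w (p.map .op) (v, σ) = (runs w p v, σ) := by
  intro p
  induction p with
  | nil => intro v σ; rfl
  | cons I p ih =>
    intro v σ
    rw [List.map_cons, sruns_cons]
    exact ih _ _

theorem push_run (w : X → R) (reg : ι → ρ) : ∀ (l : List ι) (v : ρ → R) (σ : List R),
    sruns w (l.map fun u => SInstr.push (reg u)) (v, σ) =
      (v, (l.reverse.map fun u => v (reg u)) ++ σ) := by
  intro l
  induction l with
  | nil => intro v σ; rfl
  | cons u l ih =>
    intro v σ
    rw [List.map_cons, sruns_cons]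
    show sruns w (l.map fun u => SInstr.push (reg u)) (v, v (reg u) :: σ) = _
    rw [ih, List.reverse_cons, List.map_append]
    simp

theorem pop_run (w : X → R) (reg : ι → ρ) (hreg : Function.Injective reg) (val : ι → R) :
    ∀ (l : List ι) (v : ρ → R) (σ : List R),
    ∃ v', sruns w (l.map fun u => SInstr.pop (reg u)) (v, l.map val ++ σ) = (v', σ) ∧
      (∀ u ∈ l, v' (reg u) = val u) ∧ ∀ x, (∀ u ∈ l, x ≠ reg u) → v' x = v x := by
  intro l
  induction l with
  | nil =>
    intro v σ
    exact ⟨v, rfl, fun u hu => absurd hu List.not_mem_nil, fun x _ => rfl⟩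
  | cons u l ih =>
    intro v σ
    obtain ⟨v', h1, h2, h3⟩ := ih (Function.update v (reg u) (val u)) σ
    refine ⟨v', ?_, ?_, ?_⟩
    · rw [List.map_cons, sruns_cons]
      exact h1
    · intro u' hu'
      by_cases hl : u' ∈ l
      · exact h2 u' hl
      · rw [List.mem_cons] at hu'
        rcases hu' with hu' | hu'
        · subst hu'
          rw [h3 _ (fun y hy he => hl (by rw [hreg he]; exact hy)), Function.update_self]
        · exact absurd hu' hl
    · intro x hx
      rw [h3 x fun y hy => hx y (List.mem_cons_of_mem _ hy),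
        Function.update_of_ne (hx u List.mem_cons_self)]

end Basic

/-- The registers: two for each letter, and two others. -/
abbrev SReg (k : ℕ) : Type := (Bool × Fin k) ⊕ Bool

theorem card_SReg (k : ℕ) : Fintype.card (SReg k) = 2 * k + 2 := by
  simp

variable {R : Type} [CommSemiring R] {G : Dag} {k : ℕ}

/-- the result registers -/
def rA (u : Fin k) : SReg k := Sum.inl (true, u)
/-- the registers for the left child -/
def rB (u : Fin k) : SReg k := Sum.inl (false, u)

theorem rA_inj : Function.Injective (rA (k := k)) := by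
  intro u v h
  unfold rA at h
  simpa using h

theorem rB_inj : Function.Injective (rB (k := k)) := by
  intro u v h
  unfold rB at h
  simpa using h

/-- The program computes all values of the node `i`; the stack is as before. -/
def EvN (p : List (SInstr R (Rule G k) (SReg k))) (i : G.V) : Prop :=
  ∀ (w : Rule G k → R) (v : SReg k → R) (σ : List R),
    (∀ u, (sruns w p (v, σ)).1 (rA u) = deriv w i u) ∧ (sruns w p (v, σ)).2 = σ

/-- compute the value of `(i, u)` and push it -/
noncomputable def one (R : Type) [CommSemiring R] (i : G.V) (κ : Fin (G.deg i) → Fin k → SReg k)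
    (u : Fin k) : List (SInstr R (Rule G k) (SReg k)) :=
  (blk (fun φ => (⟨i, u, φ⟩ : Rule G k)) κ (Sum.inr false) (Sum.inr true)).map .op ++
    [.push (Sum.inr true)]

theorem one_run (i : G.V) (κ : Fin (G.deg i) → Fin k → SReg k) (hκ : ∀ a v, ∃ z, κ a v = Sum.inl z)
    (u : Fin k) (w : Rule G k → R) (V : SReg k → R) (σ : List R)
    (hV : ∀ a v, V (κ a v) = deriv w (G.kid i a) v) :
    ∃ V', sruns w (one R i κ u) (V, σ) = (V', deriv w i u :: σ) ∧
      ∀ a v, V' (κ a v) = deriv w (G.kid i a) v := by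
  have hne : ∀ a v b, κ a v ≠ Sum.inr b := by
    intro a v b h
    obtain ⟨z, hz⟩ := hκ a v
    rw [hz] at h
    exact Sum.inl_ne_inr h
  obtain ⟨g1, g2⟩ := blk_run w (fun φ => (⟨i, u, φ⟩ : Rule G k)) κ (tmp := (Sum.inr false : SReg k))
    (out := Sum.inr true) (by simp) (fun a v => hne a v _) (fun a v => hne a v _) V
  obtain ⟨V', hV'⟩ : ∃ V', V' = runs w (blk (fun φ => (⟨i, u, φ⟩ : Rule G k)) κ
    (Sum.inr false : SReg k) (Sum.inr true)) V := ⟨_, rfl⟩
  rw [← hV'] at g1 g2
  refine ⟨V', ?_, fun a v => ?_⟩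
  · unfold one
    rw [sruns_append, sruns_op, ← hV']
    show (V', V' (Sum.inr true) :: σ) = _
    rw [g1, Pool.Agent.TH679.PD.deriv_eq]
    have : ∀ φ : Fin (G.deg i) → Fin k, w ⟨i, u, φ⟩ * ∏ s, V (κ s (φ s)) =
        w ⟨i, u, φ⟩ * ∏ a, deriv w (G.kid i a) (φ a) := by
      intro φ
      congr 1
      exact Finset.prod_congr rfl fun a _ => hV a (φ a)
    rw [Finset.sum_congr rfl fun φ _ => this φ]
  · rw [g2 _ (hne a v _) (hne a v _), hV]

theorem all_run (i : G.V) (κ : Fin (G.deg i) → Fin k → SReg k) (hκ : ∀ a v, ∃ z, κ a v = Sum.inl z)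
    (w : Rule G k → R) : ∀ (l : List (Fin k)) (V : SReg k → R) (σ : List R),
    (∀ a v, V (κ a v) = deriv w (G.kid i a) v) →
    ∃ V', sruns w (l.flatMap (one R i κ)) (V, σ) = (V', (l.reverse.map fun u => deriv w i u) ++ σ) := by
  intro l
  induction l with
  | nil => intro V σ _; exact ⟨V, rfl⟩
  | cons u l ih =>
    intro V σ hV
    obtain ⟨V', h1, h2⟩ := one_run i κ hκ u w V σ hV
    obtain ⟨V'', h3⟩ := ih V' (deriv w i u :: σ) h2
    refine ⟨V'', ?_⟩
    rw [List.flatMap_cons, sruns_append, h1, h3, List.reverse_cons, List.map_append]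
    simp

/-- compute all values of the node `i` from those of its children -/
noncomputable def comp (R : Type) [CommSemiring R] (i : G.V)
    (κ : Fin (G.deg i) → Fin k → SReg k) : List (SInstr R (Rule G k) (SReg k)) :=
  (List.finRange k).flatMap (one R i κ) ++
    (List.finRange k).reverse.map fun u => .pop (rA u)

theorem comp_run (i : G.V) (κ : Fin (G.deg i) → Fin k → SReg k)
    (hκ : ∀ a v, ∃ z, κ a v = Sum.inl z) (w : Rule G k → R) (V : SReg k → R) (σ : List R)
    (hV : ∀ a v, V (κ a v) = deriv w (G.kid i a) v) :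
    (∀ u, (sruns w (comp R i κ) (V, σ)).1 (rA u) = deriv w i u) ∧
      (sruns w (comp R i κ) (V, σ)).2 = σ := by
  obtain ⟨V', h1⟩ := all_run i κ hκ w (List.finRange k) V σ hV
  obtain ⟨V'', h2, h3, _⟩ := pop_run w rA rA_inj (fun u => deriv w i u) (List.finRange k).reverse V' σ
  unfold comp
  rw [sruns_append, h1, h2]
  exact ⟨fun u => h3 u (List.mem_reverse.2 (List.mem_finRange u)), rfl⟩

theorem one_length (i : G.V) (κ : Fin (G.deg i) → Fin k → SReg k) (u : Fin k) :
    (one R i κ u).length = k ^ G.deg i * (G.deg i + 2) + 2 := by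
  unfold one
  rw [List.length_append, List.length_map, blk_length]
  rfl

theorem comp_length (i : G.V) (κ : Fin (G.deg i) → Fin k → SReg k) :
    (comp R i κ).length = k * (k ^ G.deg i * (G.deg i + 2) + 3) := by
  unfold comp
  rw [List.length_append, List.length_flatMap, List.length_map, List.length_reverse,
    List.length_finRange]
  simp_rw [one_length]
  rw [List.map_const', List.sum_replicate, List.length_finRange, smul_eq_mul]
  ring

/-- all values of a node of height `g` in the complete binary tree -/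
theorem node_prog (h : ℕ) (g : ℕ) : ∀ (i : (binTree h).V), 2 ^ h ≤ (i.val + 1) * 2 ^ g →
    (i.val + 1 + 1) * 2 ^ g ≤ 2 ^ (h + 1) →
    ∃ p : List (SInstr R (Rule (binTree h) k) (SReg k)),
      p.length + (4 * k ^ 3 + 5 * k) = 2 ^ g * (5 * k) + 2 ^ g * (4 * k ^ 3 + 5 * k) ∧ EvN p i := by
  induction g with
  | zero =>
    intro i hi1 _
    have h0 : (binTree h).deg i = 0 := by
      show (if i.val + 1 < 2 ^ h then 2 else 0) = 0
      rw [if_neg]
      omega
    refine ⟨comp R i (fun _ v => rB v), ?_, fun w v σ => ?_⟩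
    · rw [comp_length, h0]
      ring
    · refine comp_run i _ (fun _ v => ⟨_, rfl⟩) w v σ fun a => ?_
      have h3 : a.val < 0 := lt_of_lt_of_eq a.isLt h0
      omega
  | succ g ih =>
    intro i hi1 hi2
    have hpg : 0 < 2 ^ g := Nat.pow_pos (by norm_num)
    have h2 : 2 ^ (h + 1) = 2 * 2 ^ h := by rw [pow_succ, mul_comm]
    have hg2 : 2 ^ (g + 1) = 2 * 2 ^ g := by rw [pow_succ, mul_comm]
    have hlt : i.val + 1 < 2 ^ h := by
      have h3 : (i.val + 1 + 1) * 1 ≤ (i.val + 1 + 1) * 2 ^ g := Nat.mul_le_mul_left _ hpg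
      have h4 : (i.val + 1 + 1) * 2 ^ (g + 1) = 2 * ((i.val + 1 + 1) * 2 ^ g) := by
        rw [hg2]; ring
      omega
    have hdeg : (binTree h).deg i = 2 := by
      show (if i.val + 1 < 2 ^ h then 2 else 0) = 2
      rw [if_pos hlt]
    obtain ⟨l, hl⟩ : ∃ l : (binTree h).V, l.val = 2 * i.val + 1 :=
      ⟨(⟨2 * i.val + 1, by omega⟩ : Fin (2 ^ (h + 1) - 1)), rfl⟩
    obtain ⟨q, hq⟩ : ∃ q : (binTree h).V, q.val = 2 * i.val + 2 :=
      ⟨(⟨2 * i.val + 2, by omega⟩ : Fin (2 ^ (h + 1) - 1)), rfl⟩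
    have el : l.val + 1 = 2 * (i.val + 1) := by omega
    have eq' : q.val + 1 = 2 * (i.val + 1) + 1 := by omega
    obtain ⟨pl, hpl, hl'⟩ := ih l (by
        rw [el]
        calc 2 ^ h ≤ (i.val + 1) * 2 ^ (g + 1) := hi1
          _ = 2 * (i.val + 1) * 2 ^ g := by rw [hg2]; ring) (by
        rw [el]
        calc (2 * (i.val + 1) + 1) * 2 ^ g ≤ (2 * (i.val + 1) + 2) * 2 ^ g :=
              Nat.mul_le_mul_right _ (by omega)
          _ = (i.val + 1 + 1) * 2 ^ (g + 1) := by rw [hg2]; ring
          _ ≤ 2 ^ (h + 1) := hi2)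
    obtain ⟨pq, hpq, hq'⟩ := ih q (by
        rw [eq']
        calc 2 ^ h ≤ (i.val + 1) * 2 ^ (g + 1) := hi1
          _ = 2 * (i.val + 1) * 2 ^ g := by rw [hg2]; ring
          _ ≤ (2 * (i.val + 1) + 1) * 2 ^ g := Nat.mul_le_mul_right _ (by omega)) (by
        rw [eq']
        calc (2 * (i.val + 1) + 1 + 1) * 2 ^ g = (i.val + 1 + 1) * 2 ^ (g + 1) := by rw [hg2]; ring
          _ ≤ 2 ^ (h + 1) := hi2)
    obtain ⟨κ, hκ⟩ : ∃ κ : Fin ((binTree h).deg i) → Fin k → SReg k,
        ∀ a v, κ a v = if a.val = 0 then rB v else rA v := ⟨_, fun _ _ => rfl⟩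
    refine ⟨pl ++ ((List.finRange k).map fun u => .push (rA u)) ++ pq ++
      ((List.finRange k).reverse.map fun u => .pop (rB u)) ++ comp R i κ, ?_, fun w v σ => ?_⟩
    · simp only [List.length_append, List.length_map, List.length_reverse, List.length_finRange,
        comp_length, hdeg]
      have e1 : k * (k ^ 2 * (2 + 2) + 3) = 4 * k ^ 3 + 3 * k := by ring
      have e2 : 2 ^ (g + 1) * (5 * k) = 2 * (2 ^ g * (5 * k)) := by rw [hg2]; ring
      have e3 : 2 ^ (g + 1) * (4 * k ^ 3 + 5 * k) = 2 * (2 ^ g * (4 * k ^ 3 + 5 * k)) := by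
        rw [hg2]; ring
      rw [e1, e2, e3]
      omega
    · rw [sruns_append, sruns_append, sruns_append, sruns_append]
      obtain ⟨a1, a2⟩ := hl' w v σ
      obtain ⟨s1, hs1⟩ : ∃ s1, s1 = sruns w pl (v, σ) := ⟨_, rfl⟩
      rw [← hs1] at a1 a2 ⊢
      obtain ⟨v1, σ1⟩ := s1
      dsimp only at a1 a2
      subst a2
      rw [push_run]
      obtain ⟨b1, b2⟩ := hq' w v1 (((List.finRange k).reverse.map fun u => v1 (rA u)) ++ σ1)
      obtain ⟨s2, hs2⟩ : ∃ s2, s2 = sruns w pq
        (v1, ((List.finRange k).reverse.map fun u => v1 (rA u)) ++ σ1) := ⟨_, rfl⟩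
      rw [← hs2] at b1 b2 ⊢
      obtain ⟨v2, σ2⟩ := s2
      dsimp only at b1 b2
      subst b2
      obtain ⟨v3, c1, c2, c3⟩ := pop_run w rB rB_inj (fun u => v1 (rA u)) (List.finRange k).reverse
        v2 σ1
      rw [c1]
      refine comp_run i κ (fun a v => ?_) w v3 σ1 fun a u => ?_
      · rw [hκ]
        split_ifs
        · exact ⟨_, rfl⟩
        · exact ⟨_, rfl⟩
      · rw [hκ]
        have h4 : ((binTree h).kid i a).val = 2 * i.val + 1 + a.val := rfl
        by_cases ha : a.val = 0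
        · rw [if_pos ha, c2 u (List.mem_reverse.2 (List.mem_finRange u)), a1]
          have h6 : (binTree h).kid i a = l := Fin.ext (by rw [h4, hl]; omega)
          rw [h6]
        · rw [if_neg ha, c3 _ (fun y _ => by unfold rA rB; simp), b1]
          have h5 := (fin_ite2 a).2
          have h6 : (binTree h).kid i a = q := Fin.ext (by rw [h4, hq]; omega)
          rw [h6]

/-- With a stack `2 k + 2` registers and `9 N` steps suffice. -/
theorem upper_stack (R : Type) [CommSemiring R] (h k : ℕ) :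
    ∃ p : List (SInstr R (Rule (binTree h) k) (SReg k)),
      p.length ≤ 9 * Fintype.card (Rule (binTree h) k) ∧
      ∀ (w : Rule (binTree h) k → R) (u : Fin k), sexec w p (rA u) = deriv w (broot h) u := by
  obtain ⟨p, hp, hp'⟩ := node_prog (R := R) (k := k) h h (broot h)
    (by show 2 ^ h ≤ (0 + 1) * 2 ^ h; omega) (by
    show (0 + 1 + 1) * 2 ^ h ≤ 2 ^ (h + 1)
    rw [pow_succ]
    omega)
  refine ⟨p, ?_, fun w u => (hp' w (fun _ => 0) []).1 u⟩
  rw [card_rule]
  obtain ⟨m, hm⟩ : ∃ m, 2 ^ h = m + 1 := ⟨2 ^ h - 1, by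
    have : 1 ≤ 2 ^ h := Nat.one_le_two_pow
    omega⟩
  rw [hm] at hp ⊢
  rw [Nat.add_sub_cancel]
  have e1 : (m + 1) * (4 * k ^ 3 + 5 * k) = m * (4 * k ^ 3 + 5 * k) + (4 * k ^ 3 + 5 * k) := by ring
  have e2 : p.length = (m + 1) * (5 * k) + m * (4 * k ^ 3 + 5 * k) := by omega
  rw [e2]
  have e3 : k ≤ k ^ 3 := by
    rcases Nat.eq_zero_or_pos k with h0 | h0
    · rw [h0]; simp
    · exact Nat.le_self_pow (by norm_num) k
  have e4 : m * (4 * k ^ 3 + 5 * k) ≤ m * (9 * k ^ 3) := Nat.mul_le_mul_left _ (by omega)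
  have e5 : (m + 1) * (5 * k) ≤ 9 * ((m + 1) * k) := by
    have : (m + 1) * (5 * k) = 5 * ((m + 1) * k) := by ring
    omega
  have e6 : m * (9 * k ^ 3) = 9 * (m * k ^ 3) := by ring
  omega

end Pool.Agent.TH706.TW
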